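import Mathlib

set_option autoImplicit false

namespace Pool.Agent.Results.MP_daf63b_nt.AllPairs

/-- `Representable p q n`: the number `n` is the sum of the elements of a finite set `S` of
numbers of the form `p ^ k * q ^ l` such that no element of `S` divides a different one. -/
def Representable (p q n : ℕ) : Prop :=
  ∃ S : Finset ℕ, (∀ s ∈ S, ∃ k l : ℕ, s = p ^ k * q ^ l) ∧
    (∀ s ∈ S, ∀ t ∈ S, s ≠ t → ¬ s ∣ t) ∧ ∑ s ∈ S, s = n

/-- The barrier lemma: `a q^L + c p^M` is never `b` times the sum of an antichain with exponents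
below `M` and `L`, if `b < p + q`, `q` does not divide `b`, and `a, c > 0`. -/
lemma barrier {p q b : ℤ} (hp : 2 ≤ p) (hq : 2 ≤ q) (hpq : IsCoprime p q) (hb : b < p + q)
    (hqb : ¬ q ∣ b) : ∀ (N : ℕ) (T : Finset (ℕ × ℕ)), T.card = N →
      (∀ x ∈ T, ∀ y ∈ T, x ≠ y → ¬ (x.1 ≤ y.1 ∧ x.2 ≤ y.2)) →
      ∀ (L M : ℕ) (a c : ℤ), 0 < a → 0 < c → (∀ x ∈ T, x.1 < M ∧ x.2 < L) →
      a * q ^ L + c * p ^ M ≠ b * ∑ x ∈ T, p ^ x.1 * q ^ x.2 := by
  intro N
  induction N with
  | zero =>
    intro T hT _ L M a c ha hc _ h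
    rw [Finset.card_eq_zero] at hT
    subst hT
    have h1 : 0 < a * q ^ L := by positivity
    have h2 : 0 < c * p ^ M := by positivity
    simp at h
    omega
  | succ N ih =>
    intro T hT hanti L M a c ha hc hlt h
    have hne : T.Nonempty := by
      rw [← Finset.card_pos, hT]; omega
    obtain ⟨x0, hx0, hmin⟩ := Finset.exists_min_image T (fun x => x.1) hne
    have hother : ∀ y ∈ T.erase x0, x0.1 < y.1 ∧ y.2 < x0.2 := by
      intro y hy
      have hy' := Finset.mem_erase.1 hy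
      have h1 : x0.1 ≤ y.1 := hmin y hy'.2
      have h2 := hanti x0 hx0 y hy'.2 (Ne.symm hy'.1)
      have h3 := hanti y hy'.2 x0 hx0 hy'.1
      constructor
      · by_contra hcon
        have : y.1 ≤ x0.1 := by omega
        by_cases hh : x0.2 ≤ y.2
        · exact h2 ⟨h1, hh⟩
        · exact h3 ⟨this, by omega⟩
      · by_contra hcon
        exact h2 ⟨h1, by omega⟩
    have hk0 := hlt x0 hx0
    obtain ⟨dM, hdM⟩ : ∃ d, M = x0.1 + (d + 1) := ⟨M - x0.1 - 1, by omega⟩
    obtain ⟨dL, hdL⟩ : ∃ d, L = x0.2 + (d + 1) := ⟨L - x0.2 - 1, by omega⟩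
    rw [← Finset.add_sum_erase T _ hx0] at h
    -- the sum over the rest is divisible by p^(k0+1)
    have hrest : p ^ (x0.1 + 1) ∣ ∑ x ∈ T.erase x0, p ^ x.1 * q ^ x.2 := by
      apply Finset.dvd_sum
      intro y hy
      exact Dvd.dvd.mul_right (pow_dvd_pow p (hother y hy).1) _
    obtain ⟨R, hR⟩ := hrest
    -- p^k0 divides a
    have hpa : p ^ x0.1 ∣ a := by
      have h1 : p ^ x0.1 ∣ a * q ^ L := by
        have h2 : a * q ^ L = p ^ x0.1 * (b * q ^ x0.2 + b * (p * R) - c * p ^ (dM + 1)) := by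
          have h3 : c * p ^ M = p ^ x0.1 * (c * p ^ (dM + 1)) := by
            rw [hdM, pow_add]; ring
          have h4 : a * q ^ L = b * (p ^ x0.1 * q ^ x0.2 + ∑ x ∈ T.erase x0, p ^ x.1 * q ^ x.2)
              - c * p ^ M := by linarith
          rw [h4, hR, h3]; ring
        exact ⟨_, h2⟩
      exact (IsCoprime.pow hpq).dvd_of_dvd_mul_right h1
    obtain ⟨a0, ha0⟩ := hpa
    have hp0 : 0 < p ^ x0.1 := by positivity
    have hq0 : 0 < q ^ x0.2 := by positivity
    have ha0pos : 0 < a0 := by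
      rw [ha0] at ha
      exact (mul_pos_iff_of_pos_left hp0).1 ha
    set x : ℤ := a0 * q ^ (dL + 1) - b with hx
    have hmain : p ^ x0.1 * x * q ^ x0.2 + c * p ^ M
        = b * ∑ y ∈ T.erase x0, p ^ y.1 * q ^ y.2 := by
      have h5 : a * q ^ L = p ^ x0.1 * (a0 * q ^ (dL + 1)) * q ^ x0.2 := by
        rw [ha0, hdL, pow_add]; ring
      rw [h5] at h
      rw [hx]
      linear_combination h
    have hpx : p ∣ x := by
      have h6 : p ^ x0.1 * (q ^ x0.2 * x) = p ^ x0.1 * (p * (b * R - c * p ^ dM)) := by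
        have h7 : c * p ^ M = p ^ x0.1 * (p * (c * p ^ dM)) := by
          rw [hdM, pow_add, pow_succ]; ring
        rw [hR, h7] at hmain
        have h8 : p ^ (x0.1 + 1) = p ^ x0.1 * p := pow_succ _ _
        rw [h8] at hmain
        linear_combination hmain
      have h9 : q ^ x0.2 * x = p * (b * R - c * p ^ dM) := mul_left_cancel₀ (ne_of_gt hp0) h6
      exact (IsCoprime.pow_right hpq).dvd_of_dvd_mul_left ⟨_, h9⟩
    have hxlow : -p < x := by
      have h10 : q ≤ a0 * q ^ (dL + 1) := by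
        have h11 : 1 ≤ a0 := ha0pos
        have h12 : 1 ≤ q ^ dL := one_le_pow₀ (by omega)
        calc q = 1 * (1 * q) := by ring
          _ ≤ a0 * (q ^ dL * q) := by
            apply mul_le_mul h11 _ (by positivity) (by omega)
            exact mul_le_mul_of_nonneg_right h12 (by omega)
          _ = a0 * q ^ (dL + 1) := by rw [pow_succ]
      rw [hx]; omega
    have hxnn : 0 ≤ x := by
      obtain ⟨y, hy⟩ := hpx
      have : -1 < y := by
        by_contra hcon
        have h13 : y ≤ -1 := by omega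
        have : p * y ≤ p * (-1) := mul_le_mul_of_nonneg_left h13 (by omega)
        rw [hy] at hxlow
        omega
      rw [hy]
      exact mul_nonneg (by omega) (by omega)
    have hxne : x ≠ 0 := by
      intro hx0'
      apply hqb
      have : b = a0 * q ^ (dL + 1) := by rw [hx] at hx0'; omega
      rw [this, pow_succ]
      exact ⟨a0 * q ^ dL, by ring⟩
    have hxpos : 0 < x := lt_of_le_of_ne hxnn (Ne.symm hxne)
    refine ih (T.erase x0) ?_ ?_ x0.2 M (p ^ x0.1 * x) c (by positivity) hc ?_ hmain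
    · rw [Finset.card_erase_of_mem hx0, hT]; rfl
    · intro y hy z hz hyz
      exact hanti y (Finset.mem_of_mem_erase hy) z (Finset.mem_of_mem_erase hz) hyz
    · intro y hy
      exact ⟨(hlt y (Finset.mem_of_mem_erase hy)).1, (hother y hy).2⟩

/-- Non-representability of `n` with `b n = a q^L + c p^M`, `n < q^L`, `n < p^M`. -/
lemma not_representable {p q b a c L M n : ℕ} (hp : 2 ≤ p) (hq : 2 ≤ q)
    (hpq : Nat.Coprime p q) (hb : b < p + q) (hqb : ¬ q ∣ b) (ha : 0 < a) (hc : 0 < c)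
    (hn : b * n = a * q ^ L + c * p ^ M) (hL : n < q ^ L) (hM : n < p ^ M) :
    ¬ Representable p q n := by
  rintro ⟨S, hS, hanti, hsum⟩
  choose! k l hkl using hS
  let f : ℕ → ℕ × ℕ := fun s => (k s, l s)
  have hinj : ∀ s ∈ S, ∀ t ∈ S, f s = f t → s = t := by
    intro s hs t ht h
    have h1 : k s = k t := congrArg Prod.fst h
    have h2 : l s = l t := congrArg Prod.snd h
    rw [hkl s hs, hkl t ht, h1, h2]
  have hpq' : IsCoprime (p : ℤ) (q : ℤ) := Nat.isCoprime_iff_coprime.2 hpq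
  refine barrier (p := (p : ℤ)) (q := (q : ℤ)) (b := (b : ℤ)) (by exact_mod_cast hp)
    (by exact_mod_cast hq) hpq' (by exact_mod_cast hb) (by exact_mod_cast hqb)
    (S.image f).card (S.image f) rfl ?_ L M (a : ℤ) (c : ℤ) (by exact_mod_cast ha)
    (by exact_mod_cast hc) ?_ ?_
  · intro x hx y hy hxy hle
    obtain ⟨s, hs, rfl⟩ := Finset.mem_image.1 hx
    obtain ⟨t, ht, rfl⟩ := Finset.mem_image.1 hy
    have hst : s ≠ t := by
      rintro rfl; exact hxy rfl
    apply hanti s hs t ht hst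
    rw [hkl s hs, hkl t ht]
    exact mul_dvd_mul (pow_dvd_pow p hle.1) (pow_dvd_pow q hle.2)
  · intro x hx
    obtain ⟨s, hs, rfl⟩ := Finset.mem_image.1 hx
    have hsn : s ≤ n := by
      rw [← hsum]
      exact Finset.single_le_sum (f := fun s => s) (fun i _ => Nat.zero_le i) hs
    have hp0 : 0 < p ^ k s := by positivity
    have hq0 : 0 < q ^ l s := by positivity
    have h1 : p ^ k s ≤ s := by
      conv_rhs => rw [hkl s hs]
      exact Nat.le_mul_of_pos_right _ hq0
    have h2 : q ^ l s ≤ s := by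
      conv_rhs => rw [hkl s hs]
      exact Nat.le_mul_of_pos_left _ hp0
    constructor
    · exact (Nat.pow_lt_pow_iff_right (by omega : 1 < p)).1 (lt_of_le_of_lt (h1.trans hsn) hM)
    · exact (Nat.pow_lt_pow_iff_right (by omega : 1 < q)).1 (lt_of_le_of_lt (h2.trans hsn) hL)
  · rw [Finset.sum_image hinj]
    have : ∑ s ∈ S, (p : ℤ) ^ (f s).1 * (q : ℤ) ^ (f s).2 = (n : ℤ) := by
      rw [← hsum]
      push_cast
      apply Finset.sum_congr rfl
      intro s hs
      conv_rhs => rw [hkl s hs]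
      push_cast
      rfl
    rw [this]
    exact_mod_cast hn.symm

/-- A suitable modulus `b`. -/
lemma exists_modulus {p q : ℕ} (hq : 2 ≤ q) (hlt : q < p) (hpq : Nat.Coprime p q)
    (hne : ¬ (p = 3 ∧ q = 2)) :
    ∃ b : ℕ, q < b ∧ b < p + q ∧ Nat.Coprime b p ∧ Nat.Coprime b q := by
  by_cases h1 : 2 * q < p
  · refine ⟨p - q, by omega, by omega, ?_, ?_⟩
    · have h : Nat.Coprime (p - q) p := by
        rw [Nat.coprime_comm]
        have h5 : Nat.Coprime ((p - q) + q) (p - q) ↔ Nat.Coprime q (p - q) := by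
          rw [Nat.coprime_self_add_left]
        rw [Nat.sub_add_cancel hlt.le] at h5
        rw [h5, Nat.coprime_sub_self_right hlt.le]
        exact hpq.symm
      exact h
    · exact (Nat.coprime_sub_self_left hlt.le).2 hpq
  · have h2 : p ≤ 2 * q := by omega
    have h3 : p ≠ 2 * q := by
      rintro rfl
      have : Nat.gcd (2 * q) q = q := Nat.gcd_eq_right (Dvd.intro_left 2 rfl)
      rw [Nat.Coprime, this] at hpq
      omega
    obtain ⟨l, hl, hql, hl2⟩ := Nat.exists_prime_lt_and_le_two_mul q (by omega)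
    have hlq : Nat.Coprime l q := by
      rw [Nat.Prime.coprime_iff_not_dvd hl]
      intro hd
      have := Nat.le_of_dvd (by omega) hd
      omega
    by_cases hlp : l ∣ p
    · -- then p = l is prime
      have hpl : p = l := by
        obtain ⟨m, hm⟩ := hlp
        have : m = 1 := by
          by_contra hm1
          have hm0 : m ≠ 0 := by rintro rfl; omega
          have : 2 ≤ m := by omega
          have : l * 2 ≤ l * m := Nat.mul_le_mul_left l this
          omega
        rw [hm, this, mul_one]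
      rw [← hpl] at hl
      by_cases hp1 : p = q + 1
      · refine ⟨2 * q - 1, by omega, by omega, ?_, ?_⟩
        · rw [Nat.coprime_comm, Nat.Prime.coprime_iff_not_dvd hl]
          rintro ⟨m, hm⟩
          have hm1 : m < 2 := by
            by_contra hcon
            have : p * 2 ≤ p * m := Nat.mul_le_mul_left p (by omega)
            omega
          interval_cases m <;> omega
        · have : Nat.Coprime (2 * q - 1) q := by
            rw [Nat.coprime_comm]
            have h5 : 2 * q - 1 = q + (q - 1) := by omega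
            rw [h5, Nat.coprime_self_add_right, Nat.coprime_comm]
            obtain ⟨r, rfl⟩ : ∃ r, q = r + 1 := ⟨q - 1, by omega⟩
            simp
          exact this
      · refine ⟨q + 1, by omega, by omega, ?_, ?_⟩
        · rw [Nat.coprime_comm, Nat.Prime.coprime_iff_not_dvd hl]
          intro hd
          have := Nat.le_of_dvd (by omega) hd
          omega
        · simp
    · refine ⟨l, hql, by omega, ?_, hlq⟩
      rw [Nat.Prime.coprime_iff_not_dvd hl]
      exact hlp

/-- Powers of coprime `P, Q` come close to each other from the right side. -/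
lemma exists_close_powers {P Q : ℕ} (hP : 2 ≤ P) (hQ : 2 ≤ Q) (hPQ : Nat.Coprime P Q) (K : ℕ) :
    ∃ m l : ℕ, K ≤ m ∧ Q ^ l < P ^ m ∧ P ^ m < 2 * Q ^ l := by
  have hP0 : (0 : ℝ) < P := by positivity
  have hQ0 : (0 : ℝ) < Q := by positivity
  have hP1 : (1 : ℝ) < P := by exact_mod_cast hP
  have hQ1 : (1 : ℝ) < Q := by exact_mod_cast hQ
  have hα : 0 < Real.log P := Real.log_pos hP1
  have hβ : 0 < Real.log Q := Real.log_pos hQ1
  have hirr : Irrational (Real.log P / Real.log Q) := by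
    rintro ⟨r, hr⟩
    have hr0 : 0 < (r : ℝ) := by rw [hr]; exact div_pos hα hβ
    have hr0' : 0 < r := by exact_mod_cast hr0
    have hnum : 0 < r.num := Rat.num_pos.2 hr0'
    obtain ⟨a, ha⟩ : ∃ a : ℕ, r.num = a := ⟨r.num.toNat, by omega⟩
    have hden : (r.den : ℝ) ≠ 0 := by exact_mod_cast r.den_ne_zero
    have h1 : (r : ℝ) = a / r.den := by
      have : (r : ℝ) = (r.num : ℝ) / (r.den : ℝ) := by exact_mod_cast (Rat.num_div_den r).symm
      rw [this, ha]; norm_cast
    have h2 : (r.den : ℝ) * Real.log P = a * Real.log Q := by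
      have h3 : Real.log P = r * Real.log Q := by rw [hr]; field_simp
      rw [h3, h1]; field_simp
    have h4 : Real.log ((P : ℝ) ^ r.den) = Real.log ((Q : ℝ) ^ a) := by
      rw [Real.log_pow, Real.log_pow]; exact h2
    have h5 : (P : ℝ) ^ r.den = (Q : ℝ) ^ a :=
      Real.log_injOn_pos (Set.mem_Ioi.2 (by positivity)) (Set.mem_Ioi.2 (by positivity)) h4
    have h6 : P ^ r.den = Q ^ a := by exact_mod_cast h5
    have h7 : Nat.Coprime (P ^ r.den) (Q ^ a) := Nat.Coprime.pow _ _ hPQ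
    rw [← h6, Nat.coprime_self] at h7
    have h8 : 1 < P ^ r.den := Nat.one_lt_pow r.den_ne_zero (by omega)
    omega
  have hdense := dense_addSubgroupClosure_pair_iff.2 hirr
  set ε : ℝ := min (Real.log 2 / (K + 1)) (Real.log P) with hε
  have hlog2 : 0 < Real.log 2 := Real.log_pos (by norm_num)
  have hε0 : 0 < ε := lt_min (by positivity) hα
  obtain ⟨x, hx, hx0, hxε⟩ : ∃ x ∈ (AddSubgroup.closure {Real.log P, Real.log Q} : Set ℝ),
      0 < x ∧ x < ε := by
    obtain ⟨x, hx1, hx2⟩ := hdense.exists_mem_open (isOpen_Ioo (a := (0 : ℝ)) (b := ε))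
      ⟨ε / 2, by constructor <;> linarith⟩
    exact ⟨x, hx1, hx2.1, hx2.2⟩
  obtain ⟨m0, k0, hmk⟩ := AddSubgroup.mem_closure_pair.1 hx
  have hmk' : (m0 : ℝ) * Real.log P + (k0 : ℝ) * Real.log Q = x := by
    simpa [zsmul_eq_mul] using hmk
  -- find integers m ≥ 1, l with 0 < m log P - l log Q < ε
  obtain ⟨m, l, hm, hy0, hyε⟩ : ∃ m l : ℤ, 1 ≤ m ∧ 0 < (m : ℝ) * Real.log P - l * Real.log Q ∧
      (m : ℝ) * Real.log P - l * Real.log Q < ε := by
    by_cases h : 1 ≤ m0
    · refine ⟨m0, -k0, h, ?_, ?_⟩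
      · push_cast; linarith
      · push_cast; linarith
    · -- use log P - j x
      obtain ⟨j, hj1, hj2⟩ : ∃ j : ℕ, (j : ℝ) * x < Real.log P ∧ Real.log P ≤ ((j : ℝ) + 1) * x := by
        refine ⟨⌈Real.log P / x⌉₊ - 1, ?_, ?_⟩
        · have hc : 0 < ⌈Real.log P / x⌉₊ := Nat.ceil_pos.2 (div_pos hα hx0)
          have h1 : ((⌈Real.log P / x⌉₊ - 1 : ℕ) : ℝ) < Real.log P / x := by
            rw [← Nat.lt_ceil]; omega
          exact (lt_div_iff₀ hx0).1 h1
        · have hc : 0 < ⌈Real.log P / x⌉₊ := Nat.ceil_pos.2 (div_pos hα hx0)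
          have h1 : Real.log P / x ≤ ⌈Real.log P / x⌉₊ := Nat.le_ceil _
          have h2 : (((⌈Real.log P / x⌉₊ - 1 : ℕ) : ℝ) + 1) = (⌈Real.log P / x⌉₊ : ℝ) := by
            rw [Nat.cast_sub (by omega)]; push_cast; ring
          rw [h2]
          exact (div_le_iff₀ hx0).1 h1
      refine ⟨1 - j * m0, j * k0, ?_, ?_, ?_⟩
      · have : (j : ℤ) * m0 ≤ 0 := mul_nonpos_of_nonneg_of_nonpos (by positivity) (by omega)
        omega
      · have : ((1 - j * m0 : ℤ) : ℝ) * Real.log P - ((j * k0 : ℤ) : ℝ) * Real.log Q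
            = Real.log P - j * x := by
          rw [← hmk']; push_cast; ring
        rw [this]; linarith
      · have : ((1 - j * m0 : ℤ) : ℝ) * Real.log P - ((j * k0 : ℤ) : ℝ) * Real.log Q
            = Real.log P - j * x := by
          rw [← hmk']; push_cast; ring
        rw [this]; linarith
  have hl0 : 0 ≤ l := by
    by_contra hcon
    have h1 : (l : ℝ) ≤ -1 := by
      have : l ≤ -1 := by omega
      exact_mod_cast this
    have h2 : (1 : ℝ) ≤ m := by exact_mod_cast hm
    have h3 : ε ≤ Real.log P := min_le_right _ _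
    nlinarith
  obtain ⟨m', rfl⟩ : ∃ m' : ℕ, m = m' := ⟨m.toNat, by omega⟩
  obtain ⟨l', rfl⟩ : ∃ l' : ℕ, l = l' := ⟨l.toNat, by omega⟩
  push_cast at hy0 hyε
  have hm' : 1 ≤ m' := by exact_mod_cast hm
  have hy1 : ((K : ℝ) + 1) * ((m' : ℝ) * Real.log P - l' * Real.log Q) < Real.log 2 := by
    have h1 : (m' : ℝ) * Real.log P - l' * Real.log Q < Real.log 2 / (K + 1) :=
      lt_of_lt_of_le hyε (min_le_left _ _)
    have h2 : (0 : ℝ) < K + 1 := by positivity
    have h3 := (lt_div_iff₀ h2).1 h1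
    linarith
  refine ⟨(K + 1) * m', (K + 1) * l', ?_, ?_, ?_⟩
  · calc K ≤ (K + 1) * 1 := by omega
      _ ≤ (K + 1) * m' := Nat.mul_le_mul_left _ hm'
  · have h1 : Real.log ((Q : ℝ) ^ ((K + 1) * l')) < Real.log ((P : ℝ) ^ ((K + 1) * m')) := by
      rw [Real.log_pow, Real.log_pow]
      push_cast
      have : (0 : ℝ) < ((K : ℝ) + 1) * ((m' : ℝ) * Real.log P - l' * Real.log Q) := by positivity
      linarith
    have h2 := (Real.log_lt_log_iff (by positivity) (by positivity)).1 h1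
    exact_mod_cast h2
  · have h1 : Real.log ((P : ℝ) ^ ((K + 1) * m')) < Real.log (2 * (Q : ℝ) ^ ((K + 1) * l')) := by
      rw [Real.log_mul (by norm_num) (by positivity), Real.log_pow, Real.log_pow]
      push_cast
      linarith
    have h2 := (Real.log_lt_log_iff (by positivity) (by positivity)).1 h1
    exact_mod_cast h2

theorem result : ∀ p q : ℕ, 2 ≤ q → q < p → Nat.Coprime p q → ({p, q} : Set ℕ) ≠ {2, 3} →
    Set.Infinite {n : ℕ | 0 < n ∧ Nat.Coprime n (p * q) ∧ ¬ Representable p q n} := by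
  intro p q hq hlt hpq hne
  have hne' : ¬ (p = 3 ∧ q = 2) := by
    rintro ⟨rfl, rfl⟩
    exact hne (Set.pair_comm 3 2)
  obtain ⟨b, hqb, hbpq, hbp, hbq⟩ := exists_modulus hq hlt hpq hne'
  obtain ⟨c, hc⟩ : ∃ c, b = q + c := ⟨b - q, by omega⟩
  have hc0 : 0 < c := by omega
  have hφ : 0 < Nat.totient b := Nat.totient_pos.2 (by omega)
  apply Set.infinite_of_forall_exists_gt
  intro K
  have hP2 : 2 ≤ p ^ Nat.totient b := by
    calc 2 ≤ p := by omega
      _ = p ^ 1 := (pow_one p).symm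
      _ ≤ p ^ Nat.totient b := Nat.pow_le_pow_right (by omega) hφ
  have hQ2 : 2 ≤ q ^ Nat.totient b := by
    calc 2 ≤ q := by omega
      _ = q ^ 1 := (pow_one q).symm
      _ ≤ q ^ Nat.totient b := Nat.pow_le_pow_right (by omega) hφ
  obtain ⟨m, l, hm, h1, h2⟩ := exists_close_powers hP2 hQ2 (Nat.Coprime.pow _ _ hpq) (b * (K + 1))
  rw [← pow_mul, ← pow_mul] at h1 h2
  set M := Nat.totient b * m with hM
  set L' := Nat.totient b * l with hL'
  have hpM : p ^ M ≡ 1 [MOD b] := by
    rw [hM, pow_mul]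
    have := (Nat.ModEq.pow_totient hbp.symm).pow m
    rwa [one_pow] at this
  have hqL : q ^ L' ≡ 1 [MOD b] := by
    rw [hL', pow_mul]
    have := (Nat.ModEq.pow_totient hbq.symm).pow l
    rwa [one_pow] at this
  have hdvd : b ∣ 1 * q ^ (L' + 1) + c * p ^ M := by
    have h3 : 1 * q ^ (L' + 1) + c * p ^ M ≡ 1 * (1 * q) + c * 1 [MOD b] := by
      rw [pow_succ]
      exact Nat.ModEq.add (Nat.ModEq.mul_left 1 (Nat.ModEq.mul_right q hqL))
        (Nat.ModEq.mul_left c hpM)
    have h4 : 1 * (1 * q) + c * 1 ≡ 0 [MOD b] := by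
      have : 1 * (1 * q) + c * 1 = b := by omega
      rw [this]
      exact (Nat.modEq_zero_iff_dvd).2 dvd_rfl
    exact (Nat.modEq_zero_iff_dvd).1 (h3.trans h4)
  obtain ⟨n, hn⟩ := hdvd
  have hn' : b * n = 1 * q ^ (L' + 1) + c * p ^ M := hn.symm
  have hb0 : 0 < b := by omega
  have hqL0 : 0 < q ^ L' := Nat.pow_pos (by omega)
  have hpM0 : 0 < p ^ M := Nat.pow_pos (by omega)
  -- size bounds
  have hnL : n < q ^ (L' + 1) := by
    have h5 : c * p ^ M < (b - 1) * q ^ (L' + 1) := by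
      calc c * p ^ M < c * (2 * q ^ L') := Nat.mul_lt_mul_of_pos_left h2 hc0
        _ = c * 2 * q ^ L' := by ring
        _ ≤ (b - 1) * q * q ^ L' :=
            Nat.mul_le_mul_right _ (Nat.mul_le_mul (by omega) hq)
        _ = (b - 1) * q ^ (L' + 1) := by rw [pow_succ]; ring
    have h6 : b * n < b * q ^ (L' + 1) := by
      rw [hn']
      calc 1 * q ^ (L' + 1) + c * p ^ M < 1 * q ^ (L' + 1) + (b - 1) * q ^ (L' + 1) :=
            Nat.add_lt_add_left h5 _
        _ = (1 + (b - 1)) * q ^ (L' + 1) := by ring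
        _ = b * q ^ (L' + 1) := by congr 1; omega
    exact Nat.lt_of_mul_lt_mul_left h6
  have hnM : n < p ^ M := by
    have h6 : b * n < b * p ^ M := by
      rw [hn']
      calc 1 * q ^ (L' + 1) + c * p ^ M = q * q ^ L' + c * p ^ M := by rw [pow_succ]; ring
        _ < q * p ^ M + c * p ^ M :=
            Nat.add_lt_add_right (Nat.mul_lt_mul_of_pos_left h1 (by omega)) _
        _ = b * p ^ M := by rw [hc]; ring
    exact Nat.lt_of_mul_lt_mul_left h6
  have hqb' : ¬ q ∣ b := by
    intro hd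
    have h7 : q ∣ Nat.gcd b q := Nat.dvd_gcd hd dvd_rfl
    rw [hbq] at h7
    have := Nat.le_of_dvd one_pos h7
    omega
  have hnrep : ¬ Representable p q n :=
    not_representable (by omega) hq hpq hbpq hqb' one_pos hc0 hn' hnL hnM
  -- n is large
  have hKn : K < n := by
    have h8 : b * (K + 1) ≤ b * n := by
      calc b * (K + 1) ≤ m := hm
        _ ≤ M := Nat.le_mul_of_pos_left _ hφ
        _ ≤ p ^ M := (Nat.lt_pow_self (by omega)).le
        _ = 1 * p ^ M := (one_mul _).symm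
        _ ≤ c * p ^ M := Nat.mul_le_mul_right _ hc0
        _ ≤ 1 * q ^ (L' + 1) + c * p ^ M := Nat.le_add_left _ _
        _ = b * n := hn
    have := Nat.le_of_mul_le_mul_left h8 hb0
    omega
  have hM1 : M ≠ 0 := by
    have : b * (K + 1) ≤ m := hm
    have h9 : 0 < b * (K + 1) := Nat.mul_pos hb0 (Nat.succ_pos K)
    have : 0 < M := Nat.mul_pos hφ (by omega)
    omega
  -- coprimality
  have hcop_q : Nat.Coprime n q := by
    rw [Nat.coprime_iff_gcd_eq_one]
    by_contra hg
    obtain ⟨r, hr, hrd⟩ := Nat.exists_prime_and_dvd hg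
    have hrn : r ∣ n := hrd.trans (Nat.gcd_dvd_left _ _)
    have hrq : r ∣ q := hrd.trans (Nat.gcd_dvd_right _ _)
    have h10 : r ∣ 1 * q ^ (L' + 1) + c * p ^ M := hn ▸ Dvd.dvd.mul_left hrn b
    have h11 : r ∣ 1 * q ^ (L' + 1) := Dvd.dvd.mul_left (dvd_pow hrq (by omega)) 1
    have h12 : r ∣ c * p ^ M := (Nat.dvd_add_right h11).1 h10
    rcases (Nat.Prime.dvd_mul hr).1 h12 with h13 | h13
    · have h14 : r ∣ b := by rw [hc]; exact Nat.dvd_add hrq h13
      have h15 : r ∣ Nat.gcd b q := Nat.dvd_gcd h14 hrq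
      rw [hbq] at h15
      exact hr.one_lt.ne' (Nat.dvd_one.1 h15)
    · have h14 : r ∣ p := hr.dvd_of_dvd_pow h13
      have h15 : r ∣ Nat.gcd p q := Nat.dvd_gcd h14 hrq
      rw [hpq] at h15
      exact hr.one_lt.ne' (Nat.dvd_one.1 h15)
  have hcop_p : Nat.Coprime n p := by
    rw [Nat.coprime_iff_gcd_eq_one]
    by_contra hg
    obtain ⟨r, hr, hrd⟩ := Nat.exists_prime_and_dvd hg
    have hrn : r ∣ n := hrd.trans (Nat.gcd_dvd_left _ _)
    have hrp : r ∣ p := hrd.trans (Nat.gcd_dvd_right _ _)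
    have h10 : r ∣ 1 * q ^ (L' + 1) + c * p ^ M := hn ▸ Dvd.dvd.mul_left hrn b
    have h11 : r ∣ c * p ^ M := Dvd.dvd.mul_left (dvd_pow hrp hM1) c
    have h12 : r ∣ 1 * q ^ (L' + 1) := (Nat.dvd_add_left h11).1 h10
    rw [one_mul] at h12
    have h14 : r ∣ q := hr.dvd_of_dvd_pow h12
    have h15 : r ∣ Nat.gcd p q := Nat.dvd_gcd hrp h14
    rw [hpq] at h15
    exact hr.one_lt.ne' (Nat.dvd_one.1 h15)
  exact ⟨n, ⟨by omega, Nat.Coprime.mul_right hcop_p hcop_q, hnrep⟩, hKn⟩

end Pool.Agent.Results.MP_daf63b_nt.AllPairs
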